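import Pool.Agent.Helper71.CK.C2.Data
import Pool.Agent.Helper11.CK.MData

/-!
The multiplier of the certificate: `|M| ≤ 5 / 2` on `|m + 3| ≤ 4`.
-/

set_option autoImplicit false

namespace Pool.Agent.Helper71.CK.C2

open Pool.Agent.Helper71.CK Pool.Agent.Helper11.CK
open Pool.Agent.Helper20.CK (ROk)
open Pool.Agent.Helper20.EK7 (InL OutL)
open Pool.Agent.Helper69.CK (MOk)

def mc : MChk := ⟨128, 60, 2, 128, 60, 2, 5, 2, 5, 5, 0, -1, 2, 1, 0, 1⟩

theorem mc_ok : mc.ok g.s = true := by decide +kernel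

theorem mOk {Mb : ℝ} (hMb : 5 / 2 < Mb) : ∃ (M' : ℂ → ℂ) (L' ε : ℝ), 0 < ε ∧
    MOk (g.s.Mu (1) (0) (-1 / 5) (1 / 2) (0) (1 / 2)) M' Mb L' ε := by
  refine mOk_Mu (a := (1 / 2)) (by constructor <;> norm_num [abs_of_nonneg, abs_of_neg, abs_of_pos, abs_of_nonpos])
    (by constructor <;> norm_num [abs_of_nonneg, abs_of_neg, abs_of_pos, abs_of_nonpos]) (by decide +kernel) mc (by decide) (by decide)
    (by constructor <;> norm_num [mc]) (by constructor <;> norm_num [mc]) mc_ok ?_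
  simp only [mc]
  norm_num
  linarith

end Pool.Agent.Helper71.CK.C2
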