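import Pool.Agent.Helper71.CK.C2.Fin
import Pool.Agent.Helper71.CK.C2.Mul
import Pool.Agent.Helper65.CK.KDataG
import Pool.Agent.Helper77.CK.PTC
import Pool.Agent.Helper52.CK.Main

/-!
# Project CK: the integral means spectrum for `p ≥ 43 / 20`
-/

set_option autoImplicit false
open Complex MeasureTheory Metric Set
open scoped Real ComplexConjugate

namespace Pool.Agent.Helper71.CK.C2

open Pool.Agent.Helper71.CK
open Pool.Agent.Helper39.Area Pool.Agent.Helper52.EK Pool.Agent.Helper52.CK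
open Pool.Agent.Helper69.CK (MOk Mh Mh_le Mh_cont)
open Pool.Agent.Helper20.EK7 (Gp Gp_glip)

/-- **the integral means spectrum**: `B(-p) ≤ p - 1` for `p ≥ 43 / 20` -/
theorem means : ∀ p : ℝ, 43 / 20 ≤ p → ∀ e : ℝ, 0 < e → ∃ C : ℝ, ∀ ψ : ℂ → ℂ,
    DifferentiableOn ℂ ψ {z : ℂ | 1 < ‖z‖} → InjOn ψ {z : ℂ | 1 < ‖z‖} →
    (∃ b : ℂ, Filter.Tendsto (fun z => ψ z - z) (Bornology.cobounded ℂ) (nhds b)) →
    ∀ R : ℝ, 1 < R →
    (2 * π)⁻¹ * (∫ θ in (0:ℝ)..(2 * π), ‖deriv ψ (R * Complex.exp (θ * I))‖ ^ (-p)) ≤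
      C * (R ^ 2 / (R ^ 2 - 1)) ^ (p - 1 + e) := by
  obtain ⟨M', L', ε, hε, hM⟩ := mOk (Mb := 13 / 5) (by norm_num)
  obtain ⟨L, hG⟩ := Gp_glip (a := (1 / 10)) (b := (1 / 10)) (b' := (0)) gOk.inL gOk.outL
  have hK := Pool.Agent.Helper65.CK.K_data_GpG gOk hIn hOut (by decide) (by decide) (by decide)
    (Pool.Agent.Helper65.CK.cenE_pos (DatG.wf_iff g gOk.wf) hCen) hk
  have hdel : (g.s.d.del : ℝ) / g.s.d.c.M = 0 := by simp [g, ct, cm]
  have hq : (1 + (g.s.tn : ℝ) / g.s.td) = 1 + 0 / (2 * (43 / 20 : ℝ)) := by simp [g, ct]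
  rw [hdel, hq] at hK
  have hpt := Pool.Agent.Helper77.CK.pt (κ := 43 / 20) (dl := 0) (by norm_num) le_rfl hG hM hε hK
  intro p hp e he
  have := main_of_pt (κ := 43 / 20) (dl := 0) (Mb := 13 / 5) (by norm_num) le_rfl (by norm_num)
    (by norm_num) hG (fun β R h => Mh_cont hM h.toExt) (fun β z => Mh_le hM β z) hpt p hp e he
  simpa only [add_zero] using this

end Pool.Agent.Helper71.CK.C2
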